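import Mathlib
import Pool.Agent.H32.PellPat

set_option autoImplicit false

namespace Pool.Agent.Results.MP_700e60_co.Counter

/-- A polynomial pattern: finitely many nonzero polynomials with coefficients in `ℕ` and zero
constant term. -/
def IsPattern {k m : ℕ} (F : Fin k → MvPolynomial (Fin m) ℕ) : Prop :=
  ∀ j, F j ≠ 0 ∧ MvPolynomial.coeff 0 (F j) = 0

/-- Partition regularity over the positive integers, with pairwise distinct values. -/
def PRNatDistinct {k m : ℕ} (F : Fin k → MvPolynomial (Fin m) ℕ) : Prop :=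
  ∀ (r : ℕ) (c : ℕ → Fin r), ∃ a : Fin m → ℕ, (∀ i, 0 < a i) ∧
    (Function.Injective fun j => MvPolynomial.eval a (F j)) ∧
    ∃ col, ∀ j, c (MvPolynomial.eval a (F j)) = col

/-- Partition regularity over `T`, the nonzero one-variable polynomials with coefficients in `ℕ`
and zero constant term. -/
def PRT {k m : ℕ} (F : Fin k → MvPolynomial (Fin m) ℕ) : Prop :=
  ∀ (r : ℕ) (c : Polynomial ℕ → Fin r), ∃ a : Fin m → Polynomial ℕ,
    (∀ i, a i ≠ 0 ∧ (a i).coeff 0 = 0) ∧ ∃ col, ∀ j, c (MvPolynomial.aeval a (F j)) = col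

open MvPolynomial in
theorem result : ∃ (k m : ℕ) (F : Fin k → MvPolynomial (Fin m) ℕ),
    IsPattern F ∧ PRNatDistinct F ∧ ¬ PRT F := by
  refine ⟨2, 3, ![X 0 * X 1 ^ 2, 2 * X 0 * X 2 ^ 2 + X 0], ?_, ?_, ?_⟩
  · have hc : ∀ f : MvPolynomial (Fin 3) ℕ, coeff 0 f = constantCoeff f := fun _ => rfl
    rw [IsPattern, Fin.forall_fin_two]
    refine ⟨⟨fun h => ?_, by simp [hc]⟩, ⟨fun h => ?_, by simp [hc]⟩⟩
    · simpa using congrArg (eval fun _ => 1) h
    · simpa using congrArg (eval fun _ => 1) h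
  · intro r c
    obtain ⟨x, y, hx, hy, hne, h⟩ := Pool.Agent.H32.PellPat.nat_side r c
    refine ⟨![1, x, y], ?_, ?_, c (x ^ 2), ?_⟩
    · intro i; fin_cases i <;> simp [hx, hy]
    · intro i j; fin_cases i <;> fin_cases j <;> simp [hne, hne.symm]
    · intro j; fin_cases j <;> simp [h]
  · intro h
    obtain ⟨a, ha, col, hc⟩ := h 2 Pool.Agent.H32.PellPat.col
    apply Pool.Agent.H32.PellPat.poly_side (a 0) (a 1) (a 2) (ha 0).1 (ha 1).1 (ha 2).1 (ha 2).2
    have h0 := hc 0
    have h1 := hc 1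
    simp only [Matrix.cons_val_zero, Matrix.cons_val_one, map_mul, map_pow, aeval_X, map_add,
      map_ofNat] at h0 h1
    rw [h0, h1]

end Pool.Agent.Results.MP_700e60_co.Counter
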